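import Pool.Agent.Y895.FB.F4

set_option autoImplicit false

/-!
# A natural choice of the number of free digits
-/

open Filter Topology MeasureTheory Finset
open scoped Real

namespace Pool.Agent.Y895.FB

open Pool.Agent.Y895.PM (pow_exp)

/-- the number of free base `b` digits -/
noncomputable def ffree (b : ℕ) (α κ : ℝ) (p : ℕ) : ℕ :=
  ⌊(p * Real.log α - κ * p / Real.log p) / Real.log b⌋₊

lemma ffree_mono {b : ℕ} (hb : 2 ≤ b) {α κ : ℝ} (hα : 1 < α) (hκ : 0 < κ) :
    ∀ᶠ p in atTop, ffree b α κ p ≤ ffree b α κ (p + 1) := by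
  have hbr : (2 : ℝ) ≤ b := by exact_mod_cast hb
  have hlb : 0 < Real.log b := Real.log_pos (by linarith)
  have hla : 0 < Real.log α := Real.log_pos hα
  have hlog : ∀ᶠ p : ℕ in atTop, κ / Real.log α + 1 ≤ Real.log p :=
    (Real.tendsto_log_atTop.comp tendsto_natCast_atTop_atTop).eventually_ge_atTop _
  filter_upwards [hlog, eventually_ge_atTop 1] with p hl hp
  have hp0 : (0 : ℝ) < p := by exact_mod_cast hp
  have h0 : 0 < κ / Real.log α := by positivity
  have hl0 : 0 < Real.log p := by linarith
  have hll : Real.log p ≤ Real.log ((p + 1 : ℕ) : ℝ) :=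
    Real.log_le_log hp0 (by push_cast; linarith)
  have h1 : κ * ((p + 1 : ℕ) : ℝ) / Real.log ((p + 1 : ℕ) : ℝ) ≤
      κ * p / Real.log p + Real.log α := by
    calc κ * ((p + 1 : ℕ) : ℝ) / Real.log ((p + 1 : ℕ) : ℝ) ≤
          κ * ((p + 1 : ℕ) : ℝ) / Real.log p := by gcongr
      _ = κ * p / Real.log p + κ / Real.log p := by push_cast; ring
      _ ≤ κ * p / Real.log p + Real.log α := by
          have : κ / Real.log p ≤ Real.log α := by
            rw [div_le_iff₀ hl0, ← div_le_iff₀' hla]
            linarith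
          linarith
  unfold ffree
  apply Nat.floor_mono
  apply div_le_div_of_nonneg_right _ hlb.le
  push_cast at h1 ⊢
  linarith

/-- admissibility of the natural choice -/
lemma ffree_spec {b : ℕ} (hb : 2 ≤ b) {α κ c C : ℝ} (hα : 1 < α) (hκ : 0 < κ) (hc : 0 < c)
    (hC : 0 < C) {Q : ℕ → ℕ} (hQ : ∀ᶠ p : ℕ in atTop, c * α ^ p ≤ Q p ∧ (Q p : ℝ) ≤ C * α ^ p) :
    Tendsto (fun p => Q p / b ^ ffree b α κ p) atTop atTop ∧
    ∀ᶠ p : ℕ in atTop, Real.log (Q p / b ^ ffree b α κ p : ℕ) ≤ 2 * κ * p / Real.log p := by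
  have hbr : (2 : ℝ) ≤ b := by exact_mod_cast hb
  have hb0 : (0 : ℝ) < b := by linarith
  have hlb : 0 < Real.log b := Real.log_pos (by linarith)
  have hla : 0 < Real.log α := Real.log_pos hα
  have hα0 : 0 < α := by linarith
  have hd := Pool.Agent.TH888.R.q_div_log hκ
  have hlog : ∀ᶠ p : ℕ in atTop, κ / Real.log α + 1 ≤ Real.log p :=
    (Real.tendsto_log_atTop.comp tendsto_natCast_atTop_atTop).eventually_ge_atTop _
  have key : ∀ᶠ p : ℕ in atTop, (b : ℝ) ^ ffree b α κ p ≤ α ^ p * Real.exp (-(κ * p / Real.log p)) ∧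
      α ^ p * Real.exp (-(κ * p / Real.log p)) ≤ b * (b : ℝ) ^ ffree b α κ p := by
    filter_upwards [hlog, eventually_ge_atTop 1] with p hl hp
    have hp0 : (0 : ℝ) < p := by exact_mod_cast hp
    have h0 : 0 < κ / Real.log α := by positivity
    have hl0 : 0 < Real.log p := by linarith
    have hx : 0 ≤ (p * Real.log α - κ * p / Real.log p) / Real.log b := by
      apply div_nonneg _ hlb.le
      have : κ * p / Real.log p ≤ p * Real.log α := by
        rw [div_le_iff₀ hl0]
        have h1 : κ ≤ Real.log α * Real.log p := by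
          rw [← div_le_iff₀' hla]
          linarith
        have := mul_le_mul_of_nonneg_left h1 hp0.le
        linarith
      linarith
    have h1 : (ffree b α κ p : ℝ) ≤ (p * Real.log α - κ * p / Real.log p) / Real.log b :=
      Nat.floor_le hx
    have h2 : (p * Real.log α - κ * p / Real.log p) / Real.log b < ffree b α κ p + 1 :=
      Nat.lt_floor_add_one _
    rw [le_div_iff₀ hlb] at h1
    rw [div_lt_iff₀ hlb] at h2
    have e1 : α ^ p * Real.exp (-(κ * p / Real.log p)) =
        Real.exp (p * Real.log α - κ * p / Real.log p) := by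
      rw [pow_expα hα p, ← Real.exp_add]
      congr 1
    have e2 : (b : ℝ) * (b : ℝ) ^ ffree b α κ p = Real.exp ((ffree b α κ p + 1) * Real.log b) := by
      rw [← pow_succ', pow_exp hb]
      push_cast
      rfl
    rw [e1, e2, pow_exp hb]
    exact ⟨Real.exp_le_exp.2 h1, Real.exp_le_exp.2 h2.le⟩
  constructor
  · rw [tendsto_atTop]
    intro k
    have h2 : ∀ᶠ p : ℕ in atTop, ((k : ℝ) + 1) / c ≤ κ * p / Real.log p := hd.eventually_ge_atTop _
    filter_upwards [key, hQ, h2] with p hp hq h2
    have hpos : 0 < b ^ ffree b α κ p := by positivity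
    rw [Nat.le_div_iff_mul_le hpos]
    have h3 : ((k : ℝ) + 1) / c ≤ Real.exp (κ * p / Real.log p) :=
      h2.trans (by linarith [Real.add_one_le_exp (κ * p / Real.log p)])
    have h4 : (k : ℝ) * (b : ℝ) ^ ffree b α κ p ≤ Q p := by
      have h5 : (0 : ℝ) ≤ k := Nat.cast_nonneg k
      have h6 : (k : ℝ) ≤ c * Real.exp (κ * p / Real.log p) := by
        rw [div_le_iff₀ hc] at h3
        linarith
      calc (k : ℝ) * (b : ℝ) ^ ffree b α κ p ≤
            (c * Real.exp (κ * p / Real.log p)) * (α ^ p * Real.exp (-(κ * p / Real.log p))) :=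
            mul_le_mul h6 hp.1 (by positivity) (by positivity)
        _ = c * α ^ p * (Real.exp (κ * p / Real.log p) * Real.exp (-(κ * p / Real.log p))) := by ring
        _ = c * α ^ p := by rw [← Real.exp_add]; simp
        _ ≤ Q p := hq.1
    exact_mod_cast h4
  · have h2 : ∀ᶠ p : ℕ in atTop, |Real.log (b * C)| ≤ κ * p / Real.log p := hd.eventually_ge_atTop _
    filter_upwards [key, hQ, h2] with p hp hq h2
    have hposR : (0 : ℝ) < (b : ℝ) ^ ffree b α κ p := by positivity
    rcases Nat.eq_zero_or_pos (Q p / b ^ ffree b α κ p) with h0 | h0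
    · rw [h0, Nat.cast_zero, Real.log_zero]
      have := abs_nonneg (Real.log (b * C))
      have e : 2 * κ * p / Real.log p = 2 * (κ * p / Real.log p) := by ring
      rw [e]
      linarith
    · have h3 : ((Q p / b ^ ffree b α κ p : ℕ) : ℝ) ≤ (Q p : ℝ) / (b : ℝ) ^ ffree b α κ p := by
        have := Nat.cast_div_le (m := Q p) (n := b ^ ffree b α κ p) (α := ℝ)
        push_cast at this
        exact this
      have h4 : (Q p : ℝ) / (b : ℝ) ^ ffree b α κ p ≤ (b * C) * Real.exp (κ * p / Real.log p) := by
        rw [div_le_iff₀ hposR]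
        calc (Q p : ℝ) ≤ C * α ^ p := hq.2
          _ = C * Real.exp (κ * p / Real.log p) *
              (α ^ p * Real.exp (-(κ * p / Real.log p))) := by
              have : Real.exp (κ * p / Real.log p) * Real.exp (-(κ * p / Real.log p)) = 1 := by
                rw [← Real.exp_add]; simp
              calc C * α ^ p = C * α ^ p * (Real.exp (κ * p / Real.log p) *
                    Real.exp (-(κ * p / Real.log p))) := by rw [this, mul_one]
                _ = _ := by ring
          _ ≤ C * Real.exp (κ * p / Real.log p) * (b * (b : ℝ) ^ ffree b α κ p) :=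
              mul_le_mul_of_nonneg_left hp.2 (by positivity)
          _ = _ := by ring
      have h5 : Real.log ((Q p / b ^ ffree b α κ p : ℕ) : ℝ) ≤
          Real.log ((b * C) * Real.exp (κ * p / Real.log p)) :=
        Real.log_le_log (by exact_mod_cast h0) (h3.trans h4)
      rw [Real.log_mul (by positivity) (Real.exp_pos _).ne', Real.log_exp] at h5
      have h6 := le_abs_self (Real.log (b * C))
      have e : 2 * κ * p / Real.log p = κ * p / Real.log p + κ * p / Real.log p := by ring
      rw [e]
      linarith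

end Pool.Agent.Y895.FB
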