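import Pool.Agent.Y895.PM.G1a

set_option autoImplicit false

/-!
# Counting in blocks of consecutive integers, for real exponential growth
-/

open Filter Topology Set MeasureTheory Metric
open scoped Real

namespace Pool.Agent.Y895.FB

open Pool.Agent.W66
open Pool.Agent.H305R2 (ff NN roughPart measurable_ff ff_nonneg LL)
open Pool.Agent.Y895.PM (log_len cnt cnt_integral ffexp_ii pieces  ff_bdd)

lemma pow_expα {α : ℝ} (hb : 1 < α) (n : ℕ) : α ^ n = Real.exp (n * Real.log α) := by
  have hb0 : 0 < α := by linarith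
  rw [mul_comm, Real.exp_mul, Real.exp_log hb0, Real.rpow_natCast]

/-- the logarithm of an integer comparable with `b ^ q` -/
lemma log_rangeα {α : ℝ} (hb : 1 < α) {c C : ℝ} (hc : 0 < c) (hC : 0 < C) {q A : ℕ}
    (h1 : c * α ^ q ≤ A) (h2 : (A : ℝ) ≤ C * α ^ q) :
    |Real.log A - Real.log α * q| ≤ |Real.log c| + |Real.log C| := by
  have hb0 : 0 < α := by linarith
  have hbq : (0 : ℝ) < α ^ q := by positivity
  have hA : (0 : ℝ) < A := lt_of_lt_of_le (by positivity) h1
  have h3 := Real.log_le_log (by positivity) h1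
  have h4 := Real.log_le_log hA h2
  rw [Real.log_mul hc.ne' hbq.ne', Real.log_pow] at h3
  rw [Real.log_mul hC.ne' hbq.ne', Real.log_pow] at h4
  have e1 := abs_nonneg (Real.log c)
  have e2 := abs_nonneg (Real.log C)
  have e3 := neg_abs_le (Real.log c)
  have e4 := le_abs_self (Real.log C)
  rw [abs_le]
  constructor <;> linarith

/-- **Upper bound in every block of length at least `b ^ (q / 4)`.** -/
theorem blocka_up {α : ℝ} (hb : 1 < α) : ∃ C : ℝ, 0 < C ∧ ∃ P : ℕ, ∀ q ≥ P, ∀ B L : ℕ,
    1 ≤ B → L ≤ B → (q : ℝ) / 4 * Real.log α ≤ Real.log L → cnt q B L ≤ C * (Real.log q / q) * L := by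
  have hl2 : 0 < Real.log 2 := Real.log_pos (by norm_num)
  have hl2b := Real.log_two_lt_d9
  have hlb : 0 < Real.log α := Real.log_pos (by linarith)
  have hlarge : ∀ᶠ q : ℕ in atTop, 8 * Real.log 2 / Real.log α ≤ q :=
    tendsto_natCast_atTop_atTop.eventually_ge_atTop _
  obtain ⟨K, hK, hev⟩ := Pool.Agent.H447R2.ML.short_interval
  have hlogq : ∀ᶠ q : ℕ in atTop, 1 ≤ Real.log q :=
    (Real.tendsto_log_atTop.comp tendsto_natCast_atTop_atTop).eventually_ge_atTop 1
  have hsm : ∀ᶠ q : ℕ in atTop, 32 * (Real.log q * Real.log (Real.log q)) ≤ (q : ℝ) / 8 * Real.log α := by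
    have h1 : ∀ᶠ x : ℝ in atTop, 32 * Real.log x ^ 2 ≤ x / 8 * Real.log α := by
      have h1 := (Real.isLittleO_pow_log_id_atTop (n := 2)).bound
        (show (0 : ℝ) < Real.log α / 256 by positivity)
      filter_upwards [h1, eventually_ge_atTop 1] with x hx hx1
      rw [Real.norm_of_nonneg (by positivity), id, Real.norm_of_nonneg (by linarith)] at hx
      linarith
    filter_upwards [tendsto_natCast_atTop_atTop.eventually h1, hlogq] with q h1 h2
    refine le_trans ?_ h1
    have h3 : Real.log (Real.log q) ≤ Real.log q := by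
      have := Real.log_le_sub_one_of_pos (show 0 < Real.log q by linarith)
      linarith
    have h4 : Real.log q * Real.log (Real.log q) ≤ Real.log q * Real.log q :=
      mul_le_mul_of_nonneg_left h3 (by linarith)
    rw [sq]
    linarith
  obtain ⟨P, hP⟩ := (hlogq.and (hsm.and (hev.and ((eventually_ge_atTop 8).and hlarge)))).exists_forall_of_atTop
  refine ⟨2 * K * (8 / Real.log α), by positivity, P, fun q hq B L hB1 hBL hL => ?_⟩
  obtain ⟨b1, b2, b3, b4, b5⟩ := hP q hq
  have hq8 : (8 : ℝ) ≤ q := by exact_mod_cast b4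
  have hq0 : (0 : ℝ) < q := by linarith
  have hL0 : (0 : ℝ) < L := by
    by_contra hcon
    have : (L : ℝ) = 0 := le_antisymm (not_lt.1 hcon) (Nat.cast_nonneg L)
    rw [this, Real.log_zero] at hL
    have : 0 < (q : ℝ) / 4 * Real.log α := by positivity
    linarith
  have hL1 : 1 ≤ L := by
    have : 0 < L := by exact_mod_cast hL0
    omega
  obtain ⟨g3, g4⟩ := log_len hB1 hL1
  have hB0 : (0 : ℝ) < B := by exact_mod_cast hB1
  have hBLr : (L : ℝ) ≤ B := by exact_mod_cast hBL
  have g5 : ((B + L : ℕ) : ℝ) ≤ 2 * B := by push_cast; linarith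
  set a := Real.log B with ha
  set b' := Real.log ((B + L : ℕ) : ℝ) with hb'
  have hBL0 : (0 : ℝ) < ((B + L : ℕ) : ℝ) := by positivity
  have hexpb : Real.exp b' = B + L := by rw [hb', Real.exp_log (by positivity)]; push_cast; ring
  have hba0 : 0 < b' - a := lt_of_lt_of_le (by positivity) g3
  have hba2 : b' ≤ a + Real.log 2 := by
    calc b' ≤ Real.log (2 * B) := Real.log_le_log hBL0 g5
      _ = a + Real.log 2 := by rw [Real.log_mul (by norm_num) hB0.ne']; ring
  have hba1 : b' - a ≤ 1 := by linarith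
  have hlow : (q : ℝ) / 8 * Real.log α ≤ a + Real.log (b' - a) := by
    have h1 : Real.log ((L : ℝ) / ((B + L : ℕ) : ℝ)) ≤ Real.log (b' - a) :=
      Real.log_le_log (by positivity) g3
    rw [Real.log_div hL0.ne' hBL0.ne'] at h1
    have h3 : Real.log 2 ≤ (q : ℝ) / 8 * Real.log α := by
      rw [div_le_iff₀ hlb] at b5
      linarith
    have e : (q : ℝ) / 4 * Real.log α = (q : ℝ) / 8 * Real.log α + (q : ℝ) / 8 * Real.log α := by ring
    rw [e] at hL
    change Real.log L - b' ≤ Real.log (b' - a) at h1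
    linarith
  have hpos : 0 < (q : ℝ) / 8 * Real.log α := by positivity
  have h1 := b3 a (b' - a) hba0 hba1 (b2.trans hlow)
  rw [show a + (b' - a) = b' by ring, ← intervalIntegral.integral_of_le (by linarith)] at h1
  have h2 : cnt q B L ≤ Real.exp b' * ∫ u in a..b', ff q u := by
    rw [← cnt_integral q hB1 L, ← intervalIntegral.integral_const_mul]
    apply intervalIntegral.integral_mono_on (by linarith) (ffexp_ii q _ _)
      ((ii_of_bdd (measurable_ff q) (ff_bdd q) _ _).const_mul _)
    intro u hu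
    have h3 : Real.exp u ≤ Real.exp b' := Real.exp_le_exp.2 hu.2
    rw [mul_comm]
    exact mul_le_mul_of_nonneg_right h3 (ff_nonneg q u)
  have h3 : Real.log q / (a + Real.log (b' - a)) ≤ 8 / Real.log α * (Real.log q / q) := by
    calc Real.log q / (a + Real.log (b' - a)) ≤ Real.log q / ((q : ℝ) / 8 * Real.log α) :=
          div_le_div_of_nonneg_left (by linarith) hpos hlow
      _ = _ := by field_simp
  have h4 : Real.exp b' * (b' - a) ≤ 2 * L := by
    calc Real.exp b' * (b' - a) ≤ (2 * B) * ((L : ℝ) / B) := by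
          apply mul_le_mul _ g4 hba0.le (by positivity)
          rw [hexpb]
          push_cast at g5
          exact g5
      _ = 2 * L := by field_simp
  have h5 : 0 ≤ 8 / Real.log α * (Real.log q / q) := by
    have : 0 < Real.log q := by linarith
    positivity
  calc cnt q B L ≤ Real.exp b' * ∫ u in a..b', ff q u := h2
    _ ≤ Real.exp b' * (K * (b' - a) * (Real.log q / (a + Real.log (b' - a)))) :=
        mul_le_mul_of_nonneg_left h1 (Real.exp_pos _).le
    _ ≤ Real.exp b' * (K * (b' - a) * (8 / Real.log α * (Real.log q / q))) := by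
        have : 0 ≤ K * (b' - a) := by positivity
        gcongr
    _ = K * (8 / Real.log α * (Real.log q / q)) * (Real.exp b' * (b' - a)) := by ring
    _ ≤ K * (8 / Real.log α * (Real.log q / q)) * (2 * L) :=
        mul_le_mul_of_nonneg_left h4 (by positivity)
    _ = _ := by ring

end Pool.Agent.Y895.FB
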