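import Pool.Agent.Y895.PM.G2
import Pool.Agent.Y895.FB.F1a

set_option autoImplicit false

/-!
# Pairs of exponents of comparable size, for real exponential growth and digits in base `b`
-/

open Filter Topology MeasureTheory Finset
open scoped Real

namespace Pool.Agent.Y895.FB

open Pool.Agent.W66 (sift_two MM MM_ne two_dvd_MM lt_of_not_dvd_MM ratio_bound large_smooth_count
  no_mid_prime exp_small)
open Pool.Agent.H305R2 (roughPart ZZ ZZ_nonneg ZZ_le_exp log_nat_tendsto)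
open Pool.Agent.Helper112.E456.SieveAux (DD)
open Pool.Agent.Y895.PM (sm bg sm_nonneg sm_le_one bg_nonneg sm_le_fn fn_eq fn_mul_le sum_blocks
  bg_sum ind_mul pow_exp cnt fn)

/-- one residue -/
lemma neara_r {b : ℕ} (hb : 2 ≤ b) {α : ℝ} (hα : 1 < α) {c C : ℝ} (hc : 0 < c) (hC : 0 < C) : ∃ K : ℝ, 0 < K ∧
    ∀ᶠ p : ℕ in atTop, ∀ q : ℕ, p ≤ q → q ≤ 2 * p →
    ∀ A B m h r : ℕ, c * α ^ p ≤ A → (A : ℝ) ≤ C * α ^ p →
    c * α ^ q ≤ B → (B : ℝ) ≤ C * α ^ q → b ^ m ≤ A → b ^ (h + m) ≤ B →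
    (p : ℝ) / 2 * Real.log α ≤ m * Real.log b → r < b ^ h → B + r ≠ b ^ h * A →
    ∑ k ∈ range (b ^ m), sm p (Real.exp (p / 2 * Real.log α)) (A + k) *
      sm q (Real.exp (p / 2 * Real.log α)) (B + (b ^ h * k + r)) ≤
      K * (Real.log p / p) ^ 2 * (b : ℝ) ^ m := by
  obtain ⟨C0, hC0, hsv⟩ := sift_two
  have hbr : (2 : ℝ) ≤ b := by exact_mod_cast hb
  have hb0 : (0 : ℝ) < b := by linarith
  have hα0 : 0 < α := by linarith
  obtain ⟨K0, hK0⟩ : ∃ K0 : ℕ, α ≤ (b : ℝ) ^ K0 := by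
    obtain ⟨K0, h⟩ := pow_unbounded_of_one_lt α (by linarith : (1 : ℝ) < b)
    exact ⟨K0, h.le⟩
  have hK01 : 1 ≤ K0 := by
    by_contra h
    have : K0 = 0 := by omega
    rw [this, pow_zero] at hK0
    linarith
  have hbb2 : 2 ≤ b ^ (2 * K0) := hb.trans (Nat.le_self_pow (by omega) b)
  obtain ⟨C1, hC1, hrat⟩ := ratio_bound (b := b ^ (2 * K0)) hbb2
  have hlb : 0 < Real.log α := Real.log_pos hα
  have hlbb : 0 < Real.log b := Real.log_pos (by linarith)
  refine ⟨C0 * (2 * C1) ^ 2 / (Real.log α / 2) ^ 2, by positivity, ?_⟩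
  obtain ⟨P, hP⟩ := eventually_atTop.1 hrat
  set D := |Real.log c| + |Real.log C| with hD
  have hlarge : ∀ᶠ p : ℕ in atTop, 3 * D / Real.log α ≤ p :=
    tendsto_natCast_atTop_atTop.eventually_ge_atTop _
  have hexpl : ∀ᶠ p : ℕ in atTop, 2 * C + C * C < Real.exp (p / 2 * Real.log α) := by
    have h1 : Tendsto (fun p : ℕ => Real.exp (p / 2 * Real.log α)) atTop atTop := by
      refine Real.tendsto_exp_atTop.comp (Tendsto.atTop_mul_const hlb ?_)
      exact tendsto_natCast_atTop_atTop.atTop_div_const (by norm_num)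
    exact h1.eventually_gt_atTop _
  filter_upwards [eventually_ge_atTop P, eventually_ge_atTop 8, hlarge, hexpl] with p hpP hp8 hpD hpE
    q hpq hq2 A B m h r hA hA2 hB hB2 hmA hmB hm hr hdeg
  have hp8' : (8 : ℝ) ≤ p := by exact_mod_cast hp8
  have hp0 : (0 : ℝ) < p := by linarith
  have hpqr : (p : ℝ) ≤ q := by exact_mod_cast hpq
  have hmR : (b : ℝ) ^ m ≤ A := by exact_mod_cast hmA
  have hmB' : (b : ℝ) ^ (h + m) ≤ B := by exact_mod_cast hmB
  have hApos : (0 : ℝ) < A := lt_of_lt_of_le (by positivity) hA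
  have hBpos : (0 : ℝ) < B := lt_of_lt_of_le (by positivity) hB
  have hA1 : 1 ≤ A := by exact_mod_cast hApos
  obtain ⟨hlA1, hlA2⟩ := abs_le.1 (log_rangeα hα hc hC hA hA2)
  obtain ⟨hlB1, -⟩ := abs_le.1 (log_rangeα hα hc hC hB hB2)
  rw [div_le_iff₀ hlb] at hpD
  set S := Real.exp (p / 2 * Real.log α) with hS
  have hbm : S ≤ (b : ℝ) ^ m := by
    rw [pow_exp hb m, hS]
    exact Real.exp_le_exp.2 hm
  have hbq : S ≤ α ^ q := by
    rw [pow_expα hα q, hS]
    apply Real.exp_le_exp.2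
    exact mul_le_mul_of_nonneg_right (by linarith) hlb.le
  have hCC : 0 < C * C := by positivity
  have hm1 : 1 ≤ m := by
    by_contra hcon
    have : m = 0 := by omega
    rw [this, Nat.cast_zero, zero_mul] at hm
    have : 0 < (p : ℝ) / 2 * Real.log α := by positivity
    linarith
  have hbh : b ^ h ≤ b ^ (h + m) := Nat.pow_le_pow_right (by omega) (by omega)
  have hbhB : b ^ h ≤ B := hbh.trans hmB
  set Z := (((B + r : ℕ) : ℤ) - ((b ^ h * A : ℕ) : ℤ)).natAbs with hZ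
  have hZ0 : 0 < Z := by
    rw [hZ, Int.natAbs_pos, sub_ne_zero]
    exact_mod_cast hdeg
  have hbq0 : (0 : ℝ) < α ^ q := by positivity
  have hbm0 : (0 : ℝ) < (b : ℝ) ^ m := by positivity
  have e4 : α ^ q * α ^ q ≤ ((((b ^ (2 * K0)) ^ q : ℕ)) : ℝ) := by
    have h1 : α ^ q ≤ ((b : ℝ) ^ K0) ^ q := pow_le_pow_left₀ hα0.le hK0 q
    have h2 : ((((b ^ (2 * K0)) ^ q : ℕ)) : ℝ) = ((b : ℝ) ^ K0) ^ q * ((b : ℝ) ^ K0) ^ q := by
      push_cast
      rw [← pow_mul, ← pow_mul, ← pow_add]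
      congr 1
      ring
    rw [h2]
    exact mul_le_mul h1 h1 (by positivity) (by positivity)
  have hZ4 : Z < (b ^ (2 * K0)) ^ q := by
    have h1 : B + r < (b ^ (2 * K0)) ^ q := by
      have h2 : ((B + r : ℕ) : ℝ) < (((b ^ (2 * K0)) ^ q : ℕ) : ℝ) := by
        refine lt_of_lt_of_le ?_ e4
        have h3 : ((B + r : ℕ) : ℝ) ≤ 2 * B := by
          have : B + r ≤ 2 * B := by omega
          exact_mod_cast this
        calc ((B + r : ℕ) : ℝ) ≤ 2 * (C * α ^ q) := by linarith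
          _ = (2 * C) * α ^ q := by ring
          _ < α ^ q * α ^ q := mul_lt_mul_of_pos_right (by linarith) hbq0
      exact_mod_cast h2
    have h2 : b ^ h * A < (b ^ (2 * K0)) ^ q := by
      have h3 : ((b ^ h * A : ℕ) : ℝ) < (((b ^ (2 * K0)) ^ q : ℕ) : ℝ) := by
        refine lt_of_lt_of_le ?_ e4
        push_cast
        have h4 : (b : ℝ) ^ h * A * (b : ℝ) ^ m < α ^ q * α ^ q * (b : ℝ) ^ m := by
          calc (b : ℝ) ^ h * A * (b : ℝ) ^ m = (b : ℝ) ^ (h + m) * A := by rw [pow_add]; ring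
            _ ≤ (C * α ^ q) * (C * α ^ p) :=
                mul_le_mul (hmB'.trans hB2) hA2 hApos.le (by positivity)
            _ ≤ (C * α ^ q) * (C * α ^ q) := by
                have : α ^ p ≤ α ^ q := pow_le_pow_right₀ (by linarith) hpq
                gcongr
            _ = (C * C) * (α ^ q * α ^ q) := by ring
            _ < (b : ℝ) ^ m * (α ^ q * α ^ q) :=
                mul_lt_mul_of_pos_right (by linarith) (by positivity)
            _ = _ := by ring
        exact lt_of_mul_lt_mul_right h4 hbm0.le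
      exact_mod_cast h3
    omega
  have hhq : h ≤ 2 * K0 * q := by
    have h1 : b ^ (h + m) < b ^ (2 * K0 * q) := by
      have h2 : ((b ^ (h + m) : ℕ) : ℝ) < ((b ^ (2 * K0 * q) : ℕ) : ℝ) := by
        rw [pow_mul b (2 * K0) q]
        refine lt_of_lt_of_le ?_ e4
        push_cast
        calc (b : ℝ) ^ (h + m) ≤ C * α ^ q := hmB'.trans hB2
          _ < α ^ q * α ^ q := mul_lt_mul_of_pos_right (by linarith) hbq0
      exact_mod_cast h2
    have h3 := (Nat.pow_lt_pow_iff_right (by omega : 1 < b)).1 h1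
    omega
  have hq2' : 2 ≤ q := by omega
  have hM0 : MM q (b ^ (2 * K0)) q Z ≠ 0 := MM_ne hbb2 hZ0
  have hDD : DD 1 (A - 1) (b ^ h) (B + r - b ^ h) ∣ MM q (b ^ (2 * K0)) q Z := by
    have e : DD 1 (A - 1) (b ^ h) (B + r - b ^ h) = b ^ h * Z := by
      unfold DD
      have e2 : ((((1 * (B + r - b ^ h) : ℕ) : ℤ)) - ((b ^ h * (A - 1) : ℕ) : ℤ)).natAbs = Z := by
        rw [hZ]
        congr 1
        have e3 : b ^ h * (A - 1) + b ^ h = b ^ h * A := by
          obtain ⟨a, rfl⟩ : ∃ a, A = a + 1 := ⟨A - 1, by omega⟩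
          rw [Nat.add_sub_cancel]
          ring
        have e5 : (((B + r - b ^ h : ℕ)) : ℤ) = ((B + r : ℕ) : ℤ) - ((b ^ h : ℕ) : ℤ) :=
          Nat.cast_sub (by omega)
        have e6 : ((b ^ h * A : ℕ) : ℤ) = ((b ^ h * (A - 1) : ℕ) : ℤ) + ((b ^ h : ℕ) : ℤ) := by
          rw [← e3]
          exact Nat.cast_add _ _
        rw [one_mul, e5, e6]
        ring
      rw [e2, one_mul]
    rw [e]
    unfold MM
    refine Dvd.dvd.mul_left (mul_dvd_mul ?_ dvd_rfl) _
    rw [← pow_mul]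
    exact pow_dvd_pow b hhq
  have hH2 : 2 ≤ b ^ m := by
    calc 2 ≤ b := hb
      _ = b ^ 1 := (pow_one b).symm
      _ ≤ b ^ m := Nat.pow_le_pow_right (by omega) hm1
  set z := Real.exp (Real.log A / 8) with hzdef
  have hz : (((b ^ m : ℕ) : ℝ)) ^ ((1 : ℝ) / 8) ≤ z := by
    have h1 : (((b ^ m : ℕ) : ℝ)) ^ ((1 : ℝ) / 8) ≤ (A : ℝ) ^ ((1 : ℝ) / 8) :=
      Real.rpow_le_rpow (by positivity) (by exact_mod_cast hmA) (by norm_num)
    refine h1.trans (le_of_eq ?_)
    rw [Real.rpow_def_of_pos hApos, hzdef]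
    congr 1
    ring
  have hzSA : z * S ≤ A := by
    rw [hzdef, hS, ← Real.exp_add]
    conv_rhs => rw [← Real.exp_log hApos]
    apply Real.exp_le_exp.2
    linarith
  have hlq' : Real.log α * p ≤ Real.log α * q := mul_le_mul_of_nonneg_left hpqr hlb.le
  have hzSB : z * S ≤ B := by
    rw [hzdef, hS, ← Real.exp_add]
    conv_rhs => rw [← Real.exp_log hBpos]
    apply Real.exp_le_exp.2
    linarith
  set Q : ℕ → Prop := fun k =>
      ((roughPart p (A + k)).Prime ∧ (((A + k) / roughPart p (A + k) : ℕ) : ℝ) < S) ∧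
      ((roughPart q (B + (b ^ h * k + r))).Prime ∧
        (((B + (b ^ h * k + r)) / roughPart q (B + (b ^ h * k + r)) : ℕ) : ℝ) < S) with hQ
  classical
  set T := (Icc 1 (b ^ m)).filter (fun n => Q (n - 1)) with hT
  have hcard : ∑ k ∈ range (b ^ m), sm p S (A + k) * sm q S (B + (b ^ h * k + r)) ≤ (T.card : ℝ) := by
    have h1 : ∀ k ∈ range (b ^ m), sm p S (A + k) * sm q S (B + (b ^ h * k + r)) =
        if Q k then (1 : ℝ) else 0 := by
      intro k _
      exact ind_mul _ _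
    rw [Finset.sum_congr rfl h1, Finset.sum_boole]
    have h2 : ((range (b ^ m)).filter Q).card ≤ T.card := by
      refine Finset.card_le_card_of_injOn (fun k => k + 1) ?_ ?_
      · intro k hk
        rw [Finset.mem_coe, mem_filter, mem_range] at hk
        rw [Finset.mem_coe, hT, mem_filter, mem_Icc]
        have h3 : 1 ≤ k + 1 ∧ k + 1 ≤ b ^ m := by omega
        exact ⟨h3, hk.2⟩
      · intro x _ y _ hxy
        simp only at hxy
        omega
    exact_mod_cast h2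
  refine hcard.trans ?_
  have hmain := hsv 1 (A - 1) (b ^ h) (B + r - b ^ h) (b ^ m) (MM q (b ^ (2 * K0)) q Z) one_pos
    (by positivity) (two_dvd_MM hq2') hM0 hDD hH2 T (filter_subset _ _) (by
      intro n hn l hl hlz hlM
      have hql := lt_of_not_dvd_MM hl hlM
      rw [hT, mem_filter, mem_Icc] at hn
      obtain ⟨⟨hn1, hn2⟩, hQn⟩ := hn
      obtain ⟨k, rfl⟩ : ∃ k, n = k + 1 := ⟨n - 1, by omega⟩
      rw [Nat.add_sub_cancel] at hQn
      have e1 : 1 * (k + 1) + (A - 1) = A + k := by omega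
      have e2 : b ^ h * (k + 1) + (B + r - b ^ h) = B + (b ^ h * k + r) := by
        rw [mul_add, mul_one]
        omega
      rw [e1, e2]
      have hA' : (A : ℝ) ≤ ((A + k : ℕ) : ℝ) := by exact_mod_cast (by omega : A ≤ A + k)
      have hB' : (B : ℝ) ≤ ((B + (b ^ h * k + r) : ℕ) : ℝ) := by
        exact_mod_cast (by omega : B ≤ B + (b ^ h * k + r))
      constructor
      · exact no_mid_prime hQn.1.1 hQn.1.2 (hzSA.trans hA') hl (by omega) (hlz.trans hz)
      · exact no_mid_prime hQn.2.1 hQn.2.2 (hzSB.trans hB') hl hql (hlz.trans hz))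
  have hr1 := hP q (by omega) q Z le_rfl hZ0 hZ4
  have hlq : Real.log q ≤ 2 * Real.log p := by
    have hq2p : (q : ℝ) ≤ p * p := by
      have : q ≤ p * p := hq2.trans (Nat.mul_le_mul_right p (by omega))
      exact_mod_cast this
    have hq0 : (0 : ℝ) < q := by exact_mod_cast (by omega : 0 < q)
    calc Real.log q ≤ Real.log (p * p) := Real.log_le_log hq0 hq2p
      _ = 2 * Real.log p := by rw [Real.log_mul hp0.ne' hp0.ne']; ring
  have hlq0 : 0 ≤ Real.log q := Real.log_natCast_nonneg q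
  have hlp0 : 0 ≤ Real.log p := Real.log_natCast_nonneg p
  have hr2 : ((MM q (b ^ (2 * K0)) q Z : ℕ) : ℝ) / (Nat.totient (MM q (b ^ (2 * K0)) q Z) : ℝ) ≤
      2 * C1 * Real.log p := by
    calc _ ≤ C1 * Real.log q := hr1
      _ ≤ C1 * (2 * Real.log p) := by gcongr
      _ = _ := by ring
  have hr0 : 0 ≤ ((MM q (b ^ (2 * K0)) q Z : ℕ) : ℝ) / (Nat.totient (MM q (b ^ (2 * K0)) q Z) : ℝ) := by
    positivity
  have hlogH : Real.log α / 2 * p ≤ Real.log ((b ^ m : ℕ) : ℝ) := by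
    push_cast
    rw [pow_exp hb m, Real.log_exp]
    linarith
  have hlbp : 0 < Real.log α / 2 * p := by positivity
  calc (T.card : ℝ) ≤ C0 * (((MM q (b ^ (2 * K0)) q Z : ℕ) : ℝ) /
        (Nat.totient (MM q (b ^ (2 * K0)) q Z) : ℝ)) ^ 2 *
        ((b ^ m : ℕ) : ℝ) / (Real.log ((b ^ m : ℕ) : ℝ)) ^ 2 := hmain
    _ ≤ C0 * (2 * C1 * Real.log p) ^ 2 * ((b ^ m : ℕ) : ℝ) / (Real.log α / 2 * p) ^ 2 := by
        gcongr
    _ = _ := by push_cast; field_simp

/-- **Pairs of exponents of comparable size.** -/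
theorem neara {b : ℕ} (hb : 2 ≤ b) {α : ℝ} (hα : 1 < α) {c C : ℝ} (hc : 0 < c) (hC : 0 < C) :
    ∃ K : ℝ, 0 < K ∧ ∃ P : ℕ, ∀ p ≥ P, ∀ q : ℕ, p ≤ q → q ≤ 2 * p →
    ∀ A B m h : ℕ, c * α ^ p ≤ A → (A : ℝ) ≤ C * α ^ p →
    c * α ^ q ≤ B → (B : ℝ) ≤ C * α ^ q → b ^ m ≤ A → b ^ (h + m) ≤ B →
    15 / 16 * (p : ℝ) * Real.log α ≤ m * Real.log b → 15 / 16 * (q : ℝ) * Real.log α ≤ ((h + m : ℕ) : ℝ) * Real.log b →
    ∑ k ∈ range (b ^ m), ∑ r ∈ range (b ^ h), fn p (A + k) * fn q (B + (b ^ h * k + r)) ≤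
      K * ((Real.log p / p) ^ 2 + (α ^ (q - p))⁻¹ * (Real.log p / p)) * (b : ℝ) ^ (h + m) := by
  obtain ⟨C2, hC2, hG⟩ := neara_r hb hα hc hC
  obtain ⟨C3, hC3, P3, hone⟩ := blocka_up hα
  have hbr : (2 : ℝ) ≤ b := by exact_mod_cast hb
  have hb0 : (0 : ℝ) < b := by linarith
  have hα0 : 0 < α := by linarith
  have hlb : 0 < Real.log α := Real.log_pos hα
  obtain ⟨PZ, hPZ⟩ := eventually_atTop.1 (ZZ_le_exp (c := Real.log α / 64) (by positivity))
  have hsm := exp_small (c := 3 / 32 * Real.log α) (by positivity)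
  obtain ⟨P, hP⟩ := eventually_atTop.1 (hG.and (hsm.and ((eventually_ge_atTop P3).and
    ((eventually_ge_atTop PZ).and (eventually_ge_atTop 8)))))
  refine ⟨4 * C + C2 + C3 * (C / c), by positivity, P,
    fun p hp q hpq hq2 A B m h hA hA2 hB hB2 hmA hmB hm hm' => ?_⟩
  obtain ⟨b1, b2, b3, b4, b5⟩ := hP p hp
  have hp8 : (8 : ℝ) ≤ p := by exact_mod_cast b5
  have hp0 : (0 : ℝ) < p := by linarith
  have hpqr : (p : ℝ) ≤ q := by exact_mod_cast hpq
  have hq2r : (q : ℝ) ≤ 2 * p := by exact_mod_cast hq2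
  have hApos : (0 : ℝ) < A := lt_of_lt_of_le (by positivity) hA
  have hBpos : (0 : ℝ) < B := lt_of_lt_of_le (by positivity) hB
  have hA1 : 1 ≤ A := by exact_mod_cast hApos
  have hB1 : 1 ≤ B := by exact_mod_cast hBpos
  set S := Real.exp (p / 2 * Real.log α) with hS
  have hS0 : 0 < S := Real.exp_pos _
  set w := Real.log p / p with hw
  have hw0 : 0 ≤ w := div_nonneg (Real.log_natCast_nonneg p) hp0.le
  have hSm : S ^ (-(1 / 2) : ℝ) = Real.exp (-(p / 4 * Real.log α)) := by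
    rw [hS, ← Real.exp_mul]; ring_nf
  -- large smooth parts
  have hdec : ∀ n k X : ℕ, p ≤ n → (n : ℝ) ≤ 2 * p → 15 / 16 * (n : ℝ) * Real.log α ≤ k * Real.log b →
      (X : ℝ) ≤ 2 * C * α ^ n →
      (X : ℝ) * (S ^ (-(1 / 2) : ℝ) * ZZ n) ≤ 2 * C * (w ^ 2 * (b : ℝ) ^ k) := by
    intro n k X hn1 hn2 hk hX
    have hZ := hPZ n (by omega)
    have hZ0 := ZZ_nonneg n
    have h1 : α ^ n * (S ^ (-(1 / 2) : ℝ) * ZZ n) ≤ w ^ 2 * (b : ℝ) ^ k := by
      rw [hSm, pow_expα hα n, pow_exp hb k]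
      calc Real.exp (n * Real.log α) * (Real.exp (-(p / 4 * Real.log α)) * ZZ n) ≤
            Real.exp (n * Real.log α) * (Real.exp (-(p / 4 * Real.log α)) *
              Real.exp (Real.log α / 64 * n)) := by gcongr
        _ = Real.exp (n * Real.log α + (-(p / 4 * Real.log α) + Real.log α / 64 * n)) := by
            rw [Real.exp_add, Real.exp_add]
        _ ≤ Real.exp (-(3 / 32 * Real.log α * p) + k * Real.log b) := by
            apply Real.exp_le_exp.2
            have h1 : (n : ℝ) + (-(p / 4) + n / 64) ≤ -(3 / 32 * p) + 15 / 16 * n := by linarith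
            have h2 := mul_le_mul_of_nonneg_right h1 hlb.le
            linarith
        _ = Real.exp (-(3 / 32 * Real.log α * p)) * Real.exp (k * Real.log b) := Real.exp_add _ _
        _ ≤ w ^ 2 * Real.exp (k * Real.log b) := mul_le_mul_of_nonneg_right b2 (Real.exp_pos _).le
    have h2 : 0 ≤ S ^ (-(1 / 2) : ℝ) * ZZ n := mul_nonneg (Real.rpow_nonneg hS0.le _) hZ0
    calc (X : ℝ) * (S ^ (-(1 / 2) : ℝ) * ZZ n) ≤ (2 * C * α ^ n) *
          (S ^ (-(1 / 2) : ℝ) * ZZ n) := mul_le_mul_of_nonneg_right hX h2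
      _ = 2 * C * (α ^ n * (S ^ (-(1 / 2) : ℝ) * ZZ n)) := by ring
      _ ≤ _ := mul_le_mul_of_nonneg_left h1 (by positivity)
  have hbp : ∑ k ∈ range (b ^ m), ∑ r ∈ range (b ^ h), bg p S (A + k) ≤
      2 * C * (w ^ 2 * (b : ℝ) ^ (h + m)) := by
    have h1 := (bg_sum (p := p) (A := A) (L := b ^ m) (X := 2 * A) hS0 hA1 (by omega)).trans
      (hdec p m (2 * A) le_rfl (by linarith) hm (by push_cast; linarith))
    have e : ∑ k ∈ range (b ^ m), ∑ r ∈ range (b ^ h), bg p S (A + k) =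
        (b : ℝ) ^ h * ∑ k ∈ range (b ^ m), bg p S (A + k) := by
      rw [Finset.mul_sum]
      refine Finset.sum_congr rfl fun k _ => ?_
      rw [Finset.sum_const, card_range, nsmul_eq_mul]
      push_cast
      ring
    rw [e]
    calc _ ≤ (b : ℝ) ^ h * (2 * C * (w ^ 2 * (b : ℝ) ^ m)) :=
          mul_le_mul_of_nonneg_left h1 (by positivity)
      _ = _ := by rw [pow_add]; ring
  have hbq : ∑ k ∈ range (b ^ m), ∑ r ∈ range (b ^ h), bg q S (B + (b ^ h * k + r)) ≤
      2 * C * (w ^ 2 * (b : ℝ) ^ (h + m)) := by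
    rw [sum_blocks (fun D => bg q S (B + D)), ← pow_add]
    exact (bg_sum (p := q) (A := B) (L := b ^ (h + m)) (X := 2 * B) hS0 hB1 (by omega)).trans
      (hdec q (h + m) (2 * B) hpq hq2r hm' (by push_cast; linarith))
  -- small smooth parts
  have hcnt : cnt p A (b ^ m) ≤ C3 * w * (b : ℝ) ^ m := by
    have h1 := hone p b3 A (b ^ m) hA1 hmA (by
      push_cast
      rw [Real.log_pow]
      have hpl : 0 ≤ (p : ℝ) * Real.log α := by positivity
      linarith)
    push_cast at h1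
    exact h1
  have hX0 : 0 ≤ C3 * w * (b : ℝ) ^ m := by positivity
  have hfib : ∀ r ∈ range (b ^ h), ∑ k ∈ range (b ^ m), sm p S (A + k) * sm q S (B + (b ^ h * k + r)) ≤
      C2 * w ^ 2 * (b : ℝ) ^ m + if B + r = b ^ h * A then C3 * w * (b : ℝ) ^ m else 0 := by
    intro r hr
    rw [mem_range] at hr
    by_cases hd : B + r = b ^ h * A
    · rw [if_pos hd]
      have h1 : ∑ k ∈ range (b ^ m), sm p S (A + k) * sm q S (B + (b ^ h * k + r)) ≤
          cnt p A (b ^ m) := by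
        unfold cnt
        refine Finset.sum_le_sum fun k _ => ?_
        calc sm p S (A + k) * sm q S (B + (b ^ h * k + r)) ≤ sm p S (A + k) :=
              mul_le_of_le_one_right (sm_nonneg _ _ _) (sm_le_one _ _ _)
          _ ≤ _ := sm_le_fn _ _ _
      have h2 : 0 ≤ C2 * w ^ 2 * (b : ℝ) ^ m := by positivity
      linarith
    · rw [if_neg hd, add_zero]
      have hpl : 0 ≤ (p : ℝ) * Real.log α := by positivity
      exact b1 q hpq hq2 A B m h r hA hA2 hB hB2 hmA hmB (by linarith) hr hd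
  have hdegs : ∑ r ∈ range (b ^ h), (if B + r = b ^ h * A then C3 * w * (b : ℝ) ^ m else 0) ≤
      C3 * (C / c) * ((α ^ (q - p))⁻¹ * w * (b : ℝ) ^ (h + m)) := by
    by_cases hex : ∃ r0 < b ^ h, B + r0 = b ^ h * A
    · obtain ⟨r0, hr0, hBr0⟩ := hex
      have h1 : ∀ r ∈ range (b ^ h), (if B + r = b ^ h * A then C3 * w * (b : ℝ) ^ m else 0) =
          if r = r0 then C3 * w * (b : ℝ) ^ m else 0 := by
        intro r _
        have : B + r = b ^ h * A ↔ r = r0 := by omega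
        simp only [this]
      rw [Finset.sum_congr rfl h1, Finset.sum_ite_eq', if_pos (mem_range.2 hr0)]
      have hqp : c * α ^ (q - p) ≤ C * (b : ℝ) ^ h := by
        have h2 : (B : ℝ) ≤ (b : ℝ) ^ h * A := by
          have : B ≤ b ^ h * A := by omega
          exact_mod_cast this
        have h3 : (c * α ^ (q - p)) * α ^ p ≤ (C * (b : ℝ) ^ h) * α ^ p := by
          calc (c * α ^ (q - p)) * α ^ p = c * α ^ q := by
                rw [mul_assoc, ← pow_add, Nat.sub_add_cancel hpq]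
            _ ≤ (b : ℝ) ^ h * A := hB.trans h2
            _ ≤ (b : ℝ) ^ h * (C * α ^ p) := mul_le_mul_of_nonneg_left hA2 (by positivity)
            _ = _ := by ring
        exact le_of_mul_le_mul_right h3 (by positivity)
      have h2 : (1 : ℝ) ≤ (C / c) * ((α ^ (q - p))⁻¹ * (b : ℝ) ^ h) := by
        have e : (C / c) * ((α ^ (q - p))⁻¹ * (b : ℝ) ^ h) =
            (C * (b : ℝ) ^ h) / (c * α ^ (q - p)) := by field_simp
        rw [e, one_le_div (by positivity)]
        exact hqp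
      calc C3 * w * (b : ℝ) ^ m = (C3 * w * (b : ℝ) ^ m) * 1 := by ring
        _ ≤ (C3 * w * (b : ℝ) ^ m) * ((C / c) * ((α ^ (q - p))⁻¹ * (b : ℝ) ^ h)) :=
            mul_le_mul_of_nonneg_left h2 hX0
        _ = _ := by rw [pow_add]; ring
    · have h1 : ∀ r ∈ range (b ^ h), (if B + r = b ^ h * A then C3 * w * (b : ℝ) ^ m else 0) = 0 := by
        intro r hr
        rw [if_neg fun h2 => hex ⟨r, mem_range.1 hr, h2⟩]
      rw [Finset.sum_congr rfl h1, Finset.sum_const_zero]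
      positivity
  have hss : ∑ k ∈ range (b ^ m), ∑ r ∈ range (b ^ h),
      sm p S (A + k) * sm q S (B + (b ^ h * k + r)) ≤
      C2 * (w ^ 2 * (b : ℝ) ^ (h + m)) +
        C3 * (C / c) * ((α ^ (q - p))⁻¹ * w * (b : ℝ) ^ (h + m)) := by
    rw [Finset.sum_comm]
    refine (Finset.sum_le_sum hfib).trans ?_
    rw [Finset.sum_add_distrib, Finset.sum_const, card_range, nsmul_eq_mul]
    have e : (((b ^ h : ℕ)) : ℝ) * (C2 * w ^ 2 * (b : ℝ) ^ m) = C2 * (w ^ 2 * (b : ℝ) ^ (h + m)) := by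
      push_cast
      rw [pow_add]
      ring
    rw [e]
    linarith
  have htot : ∑ k ∈ range (b ^ m), ∑ r ∈ range (b ^ h), fn p (A + k) * fn q (B + (b ^ h * k + r)) ≤
      (∑ k ∈ range (b ^ m), ∑ r ∈ range (b ^ h), bg p S (A + k) +
      ∑ k ∈ range (b ^ m), ∑ r ∈ range (b ^ h), bg q S (B + (b ^ h * k + r))) +
      ∑ k ∈ range (b ^ m), ∑ r ∈ range (b ^ h),
        sm p S (A + k) * sm q S (B + (b ^ h * k + r)) := by
    simp only [← Finset.sum_add_distrib]
    exact Finset.sum_le_sum fun k _ => Finset.sum_le_sum fun r _ => fn_mul_le _ _ _ _ _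
  refine htot.trans ?_
  set x := w ^ 2 * (b : ℝ) ^ (h + m) with hx
  set y := (α ^ (q - p))⁻¹ * w * (b : ℝ) ^ (h + m) with hy
  have hx0 : 0 ≤ x := by positivity
  have hy0 : 0 ≤ y := by positivity
  have hcc0 : 0 < C / c := by positivity
  have e : (4 * C + C2 + C3 * (C / c)) * (w ^ 2 + (α ^ (q - p))⁻¹ * w) * (b : ℝ) ^ (h + m) =
      (4 * C) * x + C2 * x + C3 * (C / c) * x + ((4 * C) * y + C2 * y + C3 * (C / c) * y) := by
    rw [hx, hy]; ring
  rw [e]
  have f1 : 0 ≤ C3 * (C / c) * x := by positivity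
  have f2 : 0 ≤ (4 * C) * y := by positivity
  have f3 : 0 ≤ C2 * y := by positivity
  linarith

end Pool.Agent.Y895.FB
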