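import Pool.Agent.Y895.FB.F3a
import Pool.Agent.Y895.FB.F1

set_option autoImplicit false

/-!
# Random lower digits in base `b` under prescribed upper digits, for growth `α ^ p`
-/

open Filter Topology MeasureTheory Finset
open scoped Real

namespace Pool.Agent.Y895.FB

open Pool.Agent.H305R2 (roughPart log_nat_tendsto)
open Pool.Agent.TH888.R (Sys wt wt_nonneg)
open Pool.Agent.W66S (count_primes)
open Pool.Agent.Y895.PM (U01 cnt fn XX gf ee ee_eq cnt_le ee_nonneg ee_le_one cs_abs gf_meas corr_c
  corr_p gf01 gf_int gf_mul_int U01_univ corr_cov fn_nonneg fn_le_one pow_exp)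

/-- admissible families -/
structure Adm (b : ℕ) (α κ c C : ℝ) (A m : ℕ → ℕ) (P : ℕ) : Prop where
  mono : ∀ p ≥ P, ∀ q ≥ p, m p ≤ m q
  lo : ∀ p ≥ P, c * α ^ p ≤ A p
  up : ∀ p ≥ P, (A p : ℝ) ≤ C * α ^ p
  dig : ∀ p ≥ P, b ^ m p ≤ A p
  big : ∀ p ≥ P, (p : ℝ) * Real.log α - κ * p / Real.log p ≤ m p * Real.log b

/-- **Prescribed upper digits, random lower digits.** -/
theorem sys_fb {b : ℕ} (hb : 2 ≤ b) {α : ℝ} (hα : 1 < α) : ∃ κ : ℝ, 0 < κ ∧
    ∀ (c C : ℝ), 0 < c → 0 < C → ∀ (A m : ℕ → ℕ) (P : ℕ), Adm b α κ c C A m P →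
    Sys U01 (gf b A m) (fun q _ => ee b A m q)
      (fun _ => Real.exp Real.eulerMascheroniConstant / Real.log α) := by
  have hbr : (2 : ℝ) ≤ b := by exact_mod_cast hb
  have hb0 : (0 : ℝ) < b := by linarith
  have hα0 : 0 < α := by linarith
  have hlbb : 0 < Real.log b := Real.log_pos (by linarith)
  have hlb : 0 < Real.log α := Real.log_pos hα
  obtain ⟨κ0, hκ0, hblock⟩ := blocka hα
  obtain ⟨C1, hC1, P1, hP1⟩ := blocka_up hα
  set κ := κ0 / 4 with hκ
  have hκp : 0 < κ := by positivity
  set κr := κ / (Real.log α + 1) with hκr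
  have hκrp : 0 < κr := by positivity
  have hκb : κr * Real.log α ≤ κ := by
    have e : κr * (Real.log α + 1) = κ := by rw [hκr]; field_simp
    linarith
  refine ⟨κ, hκp, fun c C hc hC A m P hadm => ?_⟩
  obtain ⟨K0, hK0, P0, hP0⟩ := hblock c C hc hC
  obtain ⟨K2, hK2, P2, hP2⟩ := neara hb hα hc hC
  set cc := Real.exp Real.eulerMascheroniConstant / Real.log α with hcc
  have hcc0 : 0 < cc := by positivity
  set D := |Real.log C| with hD
  have hD0 : 0 ≤ D := abs_nonneg _
  have hlogq : ∀ᶠ q : ℕ in atTop, max (16 * κ / Real.log α + 1) κr ≤ Real.log q :=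
    log_nat_tendsto.eventually_ge_atTop _
  have hlogq2 : ∀ᶠ q : ℕ in atTop, Real.log q ≤ q := by
    filter_upwards [eventually_ge_atTop 1] with q hq
    have hq0 : (0 : ℝ) < q := by exact_mod_cast hq
    have := Real.log_le_sub_one_of_pos hq0
    linarith
  have hDq : ∀ᶠ q : ℕ in atTop, D ≤ κ0 / 2 * q / Real.log q :=
    (Pool.Agent.TH888.R.q_div_log (by positivity)).eventually_ge_atTop _
  have hDq2 : ∀ᶠ q : ℕ in atTop, D / (3 / 16 * Real.log α) ≤ q :=
    tendsto_natCast_atTop_atTop.eventually_ge_atTop _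
  obtain ⟨P3, hP3⟩ := (hlogq.and (hlogq2.and (hDq.and hDq2))).exists_forall_of_atTop
  set Q := P + P0 + P1 + P2 + P3 + 16 with hQ
  -- elementary consequences
  have hbasic : ∀ q ≥ Q, 15 / 16 * (q : ℝ) * Real.log α ≤ m q * Real.log b ∧ 0 < Real.log q ∧
      κr * q / Real.log q ≤ q ∧ (16 : ℝ) ≤ q := by
    intro q hq
    obtain ⟨h1, h2, -, -⟩ := hP3 q (by omega)
    have h1a := (le_max_left _ _).trans h1
    have h1b := (le_max_right _ _).trans h1
    have hq16 : (16 : ℝ) ≤ q := by exact_mod_cast (by omega : 16 ≤ q)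
    have h16 : 0 < 16 * κ / Real.log α := by positivity
    have hl : 0 < Real.log q := by linarith
    have h3 : κ * q / Real.log q ≤ q / 16 * Real.log α := by
      rw [div_le_iff₀ hl]
      have h5 : 16 * κ ≤ Real.log q * Real.log α := by
        rw [← div_le_iff₀ hlb]
        linarith
      have : (q : ℝ) * (16 * κ) ≤ q * (Real.log q * Real.log α) :=
        mul_le_mul_of_nonneg_left h5 (by linarith)
      linarith
    have h4 := hadm.big q (by omega)
    have h6 : κr * q / Real.log q ≤ q := by
      rw [div_le_iff₀ hl]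
      have := mul_le_mul_of_nonneg_left h1b (show (0 : ℝ) ≤ q by linarith)
      linarith
    exact ⟨by linarith, hl, h6, hq16⟩
  have hmup : ∀ p ≥ Q, (m p : ℝ) * Real.log b ≤ p * Real.log α + D := by
    intro p hp
    have h1 := hadm.dig p (by omega)
    have h2 := hadm.up p (by omega)
    have h3 : (b : ℝ) ^ m p ≤ C * α ^ p := by
      have : (b : ℝ) ^ m p ≤ A p := by exact_mod_cast h1
      linarith
    have h4 := Real.log_le_log (by positivity) h3
    rw [Real.log_mul hC.ne' (by positivity), Real.log_pow, Real.log_pow] at h4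
    have h5 := le_abs_self (Real.log C)
    linarith
  have hlen : ∀ q ≥ Q, ∀ h : ℕ, (q : ℝ) * Real.log α - 2 * (κ * q / Real.log q) - D ≤
      h * Real.log b → α ^ q * Real.exp (-(κ0 * q / Real.log q)) ≤ ((b ^ h : ℕ) : ℝ) := by
    intro q hq h hh
    obtain ⟨h1, h2, h3, h4⟩ := hbasic q hq
    obtain ⟨-, -, g3, -⟩ := hP3 q (by omega)
    push_cast
    rw [pow_expα hα q, pow_exp hb h, ← Real.exp_add]
    apply Real.exp_le_exp.2
    have h5 : 2 * (κ * q / Real.log q) = κ0 / 2 * q / Real.log q := by
      rw [hκ]; ring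
    have h6 : κ0 * q / Real.log q = κ0 / 2 * q / Real.log q + κ0 / 2 * q / Real.log q := by ring
    rw [h6]
    linarith
  have hbigl : ∀ q ≥ Q, (q : ℝ) * Real.log α - κ * q / Real.log q ≤ m q * Real.log b :=
    fun q hq => hadm.big q (by omega)
  have hpos2 : ∀ q ≥ Q, 0 ≤ κ * q / Real.log q := by
    intro q hq
    obtain ⟨h1, h2, h3, h4⟩ := hbasic q hq
    positivity
  have hee : ∀ q ≥ Q, ∃ μ : ℝ, |μ - cc * wt q| ≤ K0 * (1 / q) ∧
      |ee b A m q - μ| ≤ K0 * (Real.log q / q ^ 2) ∧
      ∀ B L : ℕ, A q ≤ B → B + L ≤ 2 * A q →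
      α ^ q * Real.exp (-(κ0 * q / Real.log q)) ≤ L →
      |cnt q B L - μ * L| ≤ K0 * (Real.log q / q ^ 2) * L := by
    intro q hq
    obtain ⟨μ, h1, h2⟩ := hP0 q (by omega) (A q) (hadm.lo q (by omega)) (hadm.up q (by omega))
    refine ⟨μ, h1, ?_, h2⟩
    have hd := hadm.dig q (by omega)
    have h3 := h2 (A q) (b ^ m q) le_rfl (by omega) (hlen q hq (m q) (by
      have := hbigl q hq
      have := hpos2 q hq
      linarith))
    push_cast at h3
    have h0 : (0 : ℝ) < (b : ℝ) ^ m q := by positivity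
    have e : ee b A m q - μ = ((b : ℝ) ^ m q)⁻¹ * (cnt q (A q) (b ^ m q) - μ * (b : ℝ) ^ m q) := by
      unfold ee
      field_simp
    rw [e, abs_mul, abs_of_pos (by positivity : 0 < ((b : ℝ) ^ m q)⁻¹), inv_mul_eq_div,
      div_le_iff₀ h0]
    exact h3
  have hr : ∀ q ≥ Q, Real.log q / (q : ℝ) ^ 2 ≤ 1 / q := by
    intro q hq
    obtain ⟨h1, h2, -, -⟩ := hP3 q (by omega)
    obtain ⟨-, -, -, h16⟩ := hbasic q hq
    have hq0 : (0 : ℝ) < q := by linarith
    rw [div_le_div_iff₀ (by positivity) hq0, one_mul, sq]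
    exact mul_le_mul_of_nonneg_right h2 hq0.le
  have hmean : ∀ q ≥ Q, |ee b A m q - cc * wt q| ≤ 2 * K0 * (1 / q) := by
    intro q hq
    obtain ⟨μ, h1, h2, -⟩ := hee q hq
    have e : ee b A m q - cc * wt q = (ee b A m q - μ) + (μ - cc * wt q) := by ring
    rw [e]
    refine (abs_add_le _ _).trans ?_
    have h3 := mul_le_mul_of_nonneg_left (hr q hq) hK0.le
    linarith
  have hA1 : ∀ q ≥ Q, 1 ≤ A q := by
    intro q hq
    have := hadm.dig q (by omega)
    have h2 : 0 < b ^ m q := by positivity
    omega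
  have hup : ∀ q ≥ Q, ee b A m q ≤ C1 * wt q := by
    intro q hq
    obtain ⟨h1, h2, h3, h4⟩ := hbasic q hq
    have h5 := hP1 q (by omega) (A q) (b ^ m q) (hA1 q hq) (hadm.dig q (by omega)) (by
      push_cast
      rw [Real.log_pow]
      have : 0 ≤ (q : ℝ) * Real.log α := by positivity
      linarith)
    push_cast at h5
    unfold ee
    rw [inv_mul_eq_div, div_le_iff₀ (by positivity)]
    exact h5
  -- blocks inside the family
  have hblk : ∀ p ≥ Q, ∀ q ≥ p, ∀ k < b ^ m p, A q ≤ A q + b ^ (m q - m p) * k ∧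
      A q + b ^ (m q - m p) * k + b ^ (m q - m p) ≤ 2 * A q := by
    intro p hp q hq k hk
    have h2 := hadm.dig q (by omega)
    have h3 := hadm.mono p (by omega) q hq
    have h4 : b ^ (m q - m p) * k + b ^ (m q - m p) ≤ b ^ m q := by
      calc b ^ (m q - m p) * k + b ^ (m q - m p) = b ^ (m q - m p) * (k + 1) := by ring
        _ ≤ b ^ (m q - m p) * b ^ m p := Nat.mul_le_mul_left _ hk
        _ = b ^ m q := by rw [← pow_add, Nat.sub_add_cancel h3]
    omega
  have hpw : ∀ p ≥ Q, ∀ q ≥ p, (b : ℝ) ^ m q = (b : ℝ) ^ (m q - m p) * (b : ℝ) ^ m p := by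
    intro p hp q hq
    rw [← pow_add, Nat.sub_add_cancel (hadm.mono p (by omega) q hq)]
  have hcorr0 : ∀ p ≥ Q, ∀ q ≥ p, ∀ E : ℝ, 0 ≤ E → (∀ k < b ^ m p,
      |cnt q (A q + b ^ (m q - m p) * k) (b ^ (m q - m p)) -
        (b : ℝ) ^ (m q - m p) * ee b A m q| ≤ E * (b : ℝ) ^ (m q - m p)) →
      |∫ t, (gf b A m p t - ee b A m p) * (gf b A m q t - ee b A m q) ∂U01| ≤ E := by
    intro p hp q hq E hE h
    have h3 := hadm.mono p (by omega) q hq
    have h0 : (0 : ℝ) < (b : ℝ) ^ m q := by positivity
    rw [corr_c hb A m h3, abs_mul, abs_of_pos (by positivity : 0 < ((b : ℝ) ^ m q)⁻¹),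
      inv_mul_eq_div, div_le_iff₀ h0]
    refine (Finset.abs_sum_le_sum_abs _ _).trans ?_
    calc ∑ k ∈ range (b ^ m p), |(fn p (A p + k) - ee b A m p) *
        (cnt q (A q + b ^ (m q - m p) * k) (b ^ (m q - m p)) -
          (b : ℝ) ^ (m q - m p) * ee b A m q)| ≤
          ∑ k ∈ range (b ^ m p), E * (b : ℝ) ^ (m q - m p) := by
          refine Finset.sum_le_sum fun k hk => ?_
          rw [mem_range] at hk
          rw [abs_mul]
          calc _ ≤ 1 * (E * (b : ℝ) ^ (m q - m p)) :=
                mul_le_mul (cs_abs hb A m p _) (h k hk) (abs_nonneg _) zero_le_one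
            _ = _ := one_mul _
      _ = E * (b : ℝ) ^ m q := by
          rw [Finset.sum_const, card_range, nsmul_eq_mul, hpw p hp q hq]
          push_cast
          ring
  have hw0 : ∀ n : ℕ, 0 ≤ Real.log n / (n : ℝ) := fun n =>
    div_nonneg (Real.log_natCast_nonneg n) (Nat.cast_nonneg n)
  have hcov : ∀ p ≥ Q, ∀ q ≥ Q, ∀ E : ℝ, 0 ≤ E → ∫ t, gf b A m p t * gf b A m q t ∂U01 ≤ E →
      |∫ t, (gf b A m p t - ee b A m p) * (gf b A m q t - ee b A m q) ∂U01| ≤
        E + C1 ^ 2 * (wt p * wt q) := by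
    intro p hp q hq E hE h
    rw [corr_cov hb]
    have h1 : 0 ≤ ∫ t, gf b A m p t * gf b A m q t ∂U01 :=
      integral_nonneg fun t => mul_nonneg (fn_nonneg _ _) (fn_nonneg _ _)
    have h2 : 0 ≤ ee b A m p * ee b A m q := mul_nonneg (ee_nonneg _ _ _ _) (ee_nonneg _ _ _ _)
    have h3 : ee b A m p * ee b A m q ≤ C1 ^ 2 * (wt p * wt q) := by
      calc ee b A m p * ee b A m q ≤ (C1 * wt p) * (C1 * wt q) :=
            mul_le_mul (hup p hp) (hup q hq) (ee_nonneg _ _ _ _)
              (mul_nonneg hC1.le (wt_nonneg p))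
        _ = _ := by ring
    rw [abs_le]
    constructor <;> linarith
  set J : ℕ → ℕ → ℝ := fun p q => if Q ≤ p then
    ∫ t, (gf b A m p t - ee b A m p) * (gf b A m q t - ee b A m q) ∂U01 else 0 with hJ
  set K := 2 * K0 + (2 * C1 ^ 2) + (K2 + 2 * C1 ^ 2) with hK
  have hKp : 0 < K := by positivity
  obtain ⟨C', hC', P', hP', hP3', hrow⟩ := row_real (κ := κr) (K := K) hκrp hKp (b := α) hα J Q
    (by
      intro q hq p hp
      have hr0 : 0 ≤ Real.log q / (q : ℝ) ^ 2 :=
        div_nonneg (Real.log_natCast_nonneg q) (by positivity)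
      simp only [hJ]
      split_ifs with hpQ
      · obtain ⟨h1, h2, h3, h4⟩ := hbasic q hq
        have hpq : p ≤ q := by
          have : (p : ℝ) ≤ q := by linarith
          exact_mod_cast this
        have hmm := hadm.mono p (by omega) q hpq
        obtain ⟨μ, h5, h6, h7⟩ := hee q hq
        have hlen2 : α ^ q * Real.exp (-(κ0 * q / Real.log q)) ≤
            ((b ^ (m q - m p) : ℕ) : ℝ) := by
          apply hlen q hq
          rw [Nat.cast_sub hmm]
          have h8 := hbigl q hq
          have h9 := hmup p hpQ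
          have h10 := mul_le_mul_of_nonneg_right hp hlb.le
          have e : κr * q / Real.log q * Real.log α = κr * Real.log α * q / Real.log q := by ring
          rw [e] at h10
          have h11 : κr * Real.log α * q / Real.log q ≤ κ * q / Real.log q := by
            apply div_le_div_of_nonneg_right _ h2.le
            exact mul_le_mul_of_nonneg_right hκb (by linarith)
          linarith
        refine (hcorr0 p hpQ q hpq (2 * K0 * (Real.log q / (q : ℝ) ^ 2)) (by positivity) ?_).trans
          (mul_le_mul_of_nonneg_right (by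
            rw [hK]
            have : 0 ≤ C1 ^ 2 := sq_nonneg C1
            linarith) hr0)
        intro k hk
        obtain ⟨h8, h9⟩ := hblk p hpQ q hpq k hk
        have h10 := h7 _ _ h8 h9 hlen2
        push_cast at h10
        have h0 : (0 : ℝ) < (b : ℝ) ^ (m q - m p) := by positivity
        have e : cnt q (A q + b ^ (m q - m p) * k) (b ^ (m q - m p)) -
            (b : ℝ) ^ (m q - m p) * ee b A m q =
            (cnt q (A q + b ^ (m q - m p) * k) (b ^ (m q - m p)) -
            μ * (b : ℝ) ^ (m q - m p)) - (b : ℝ) ^ (m q - m p) * (ee b A m q - μ) := by ring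
        rw [e]
        refine (abs_sub _ _).trans ?_
        rw [abs_mul, abs_of_pos h0]
        have h11 := mul_le_mul_of_nonneg_left h6 h0.le
        linarith
      · rw [abs_zero]; positivity)
    (by
      intro p hp q hq
      simp only [hJ]
      rw [if_pos hp]
      have hpq : p ≤ q := by omega
      have hqQ : Q ≤ q := by omega
      obtain ⟨h1, h2, h3, h4⟩ := hbasic q hqQ
      obtain ⟨-, -, -, g4⟩ := hP3 q (by omega)
      have hmm := hadm.mono p (by omega) q hpq
      have hprod : ∫ t, gf b A m p t * gf b A m q t ∂U01 ≤ C1 ^ 2 * (wt p * wt q) := by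
        have h0 : (0 : ℝ) < (b : ℝ) ^ m q := by positivity
        have hh : (q : ℝ) / 4 * Real.log α ≤ ((m q - m p : ℕ) : ℝ) * Real.log b := by
          rw [Nat.cast_sub hmm]
          have h9 := hmup p hp
          rw [div_le_iff₀ (by positivity)] at g4
          have h11 : (p : ℝ) ≤ q / 2 := by
            have : ((2 * p : ℕ) : ℝ) ≤ q := by exact_mod_cast hq
            push_cast at this
            linarith
          have h12 := mul_le_mul_of_nonneg_right h11 hlb.le
          linarith
        have hcn : ∀ k < b ^ m p, cnt q (A q + b ^ (m q - m p) * k) (b ^ (m q - m p)) ≤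
            C1 * wt q * (b : ℝ) ^ (m q - m p) := by
          intro k hk
          obtain ⟨h8, h9⟩ := hblk p hp q hpq k hk
          have h10 := hP1 q (by omega) (A q + b ^ (m q - m p) * k) (b ^ (m q - m p))
            ((hA1 q hqQ).trans h8) (by
              have : b ^ (m q - m p) ≤ b ^ m q := Nat.pow_le_pow_right (by omega) (by omega)
              have := hadm.dig q (by omega)
              omega) (by
            push_cast
            rw [Real.log_pow]
            exact hh)
          push_cast at h10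
          exact h10
        rw [corr_p hb A m hmm, inv_mul_eq_div, div_le_iff₀ h0]
        calc ∑ k ∈ range (b ^ m p), ∑ r ∈ range (b ^ (m q - m p)),
              fn p (A p + k) * fn q (A q + (b ^ (m q - m p) * k + r)) =
            ∑ k ∈ range (b ^ m p), fn p (A p + k) *
              cnt q (A q + b ^ (m q - m p) * k) (b ^ (m q - m p)) := by
              refine Finset.sum_congr rfl fun k _ => ?_
              rw [← Finset.mul_sum]
              unfold cnt
              congr 1
              refine Finset.sum_congr rfl fun r _ => ?_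
              rw [add_assoc]
          _ ≤ ∑ k ∈ range (b ^ m p), fn p (A p + k) * (C1 * wt q * (b : ℝ) ^ (m q - m p)) := by
              refine Finset.sum_le_sum fun k hk => ?_
              rw [mem_range] at hk
              exact mul_le_mul_of_nonneg_left (hcn k hk) (fn_nonneg _ _)
          _ = cnt p (A p) (b ^ m p) * (C1 * wt q * (b : ℝ) ^ (m q - m p)) := by
              rw [← Finset.sum_mul]
              rfl
          _ = ee b A m p * (C1 * wt q * (b : ℝ) ^ m q) := by
              unfold ee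
              rw [hpw p hp q hpq]
              field_simp
          _ ≤ (C1 * wt p) * (C1 * wt q * (b : ℝ) ^ m q) := by
              apply mul_le_mul_of_nonneg_right (hup p hp)
              have := wt_nonneg q
              positivity
          _ = _ := by ring
      have hwpq : 0 ≤ wt p * wt q := mul_nonneg (wt_nonneg p) (wt_nonneg q)
      refine (hcov p hp q hqQ _ (by positivity) hprod).trans ?_
      have e : C1 ^ 2 * (wt p * wt q) + C1 ^ 2 * (wt p * wt q) = (2 * C1 ^ 2) * (wt p * wt q) := by
        ring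
      rw [e]
      refine mul_le_mul_of_nonneg_right ?_ hwpq
      rw [hK]
      have : 0 ≤ C1 ^ 2 := sq_nonneg C1
      linarith)
    (by
      intro p hp q hq hq2
      simp only [hJ]
      rw [if_pos hp]
      have hpq : p ≤ q := hq.le
      have hqQ : Q ≤ q := by omega
      obtain ⟨h1, h2, h3, h4⟩ := hbasic p hp
      obtain ⟨g1, g2, g3, g4⟩ := hbasic q hqQ
      have hmm := hadm.mono p (by omega) q hpq
      have hprod : ∫ t, gf b A m p t * gf b A m q t ∂U01 ≤
          K2 * ((Real.log p / p) ^ 2 + (α ^ (q - p))⁻¹ * (Real.log p / p)) := by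
        have h0 : (0 : ℝ) < (b : ℝ) ^ m q := by positivity
        have h5 := hP2 p (by omega) q hpq hq2 (A p) (A q) (m p) (m q - m p)
          (hadm.lo p (by omega)) (hadm.up p (by omega)) (hadm.lo q (by omega))
          (hadm.up q (by omega)) (hadm.dig p (by omega))
          (by rw [Nat.sub_add_cancel hmm]; exact hadm.dig q (by omega)) h1
          (by rw [Nat.sub_add_cancel hmm]; exact g1)
        rw [Nat.sub_add_cancel hmm] at h5
        rw [corr_p hb A m hmm, inv_mul_eq_div, div_le_iff₀ h0]
        exact h5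
      have hp0 : (0 : ℝ) < p := by linarith
      have hwq : wt q ≤ 2 * (Real.log p / p) := by
        have hpq' : (p : ℝ) ≤ q := by exact_mod_cast hpq
        have hq2' : (q : ℝ) ≤ p * p := by
          have : (q : ℝ) ≤ 2 * p := by exact_mod_cast hq2
          have h5 : 2 * (p : ℝ) ≤ p * p := mul_le_mul_of_nonneg_right (by linarith) hp0.le
          linarith
        have hlq : Real.log q ≤ 2 * Real.log p := by
          calc Real.log q ≤ Real.log (p * p) := Real.log_le_log (by linarith) hq2'
            _ = 2 * Real.log p := by rw [Real.log_mul hp0.ne' hp0.ne']; ring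
        calc Real.log q / q ≤ (2 * Real.log p) / p := div_le_div₀ (by linarith) hlq hp0 hpq'
          _ = _ := by ring
      have hE0 : 0 ≤ K2 * ((Real.log p / p) ^ 2 + (α ^ (q - p))⁻¹ * (Real.log p / p)) := by
        have := hw0 p
        positivity
      refine (hcov p hp q hqQ _ hE0 hprod).trans ?_
      have e3 : C1 ^ 2 * (wt p * wt q) ≤ 2 * C1 ^ 2 * (Real.log p / p) ^ 2 := by
        calc C1 ^ 2 * (wt p * wt q) ≤ C1 ^ 2 * ((Real.log p / p) * (2 * (Real.log p / p))) := by
              apply mul_le_mul_of_nonneg_left _ (sq_nonneg C1)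
              exact mul_le_mul_of_nonneg_left hwq (hw0 p)
          _ = _ := by ring
      have e4 : 0 ≤ (α ^ (q - p))⁻¹ * (Real.log p / p) :=
        mul_nonneg (by positivity) (hw0 p)
      have e5 : 0 ≤ (Real.log p / p) ^ 2 := sq_nonneg _
      have e6 : K2 * ((Real.log p / p) ^ 2 + (α ^ (q - p))⁻¹ * (Real.log p / p)) +
          2 * C1 ^ 2 * (Real.log p / p) ^ 2 ≤
          K * ((Real.log p / p) ^ 2 + (α ^ (q - p))⁻¹ * (Real.log p / p)) := by
        have e7 : K * ((Real.log p / p) ^ 2 + (α ^ (q - p))⁻¹ * (Real.log p / p)) =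
            (K2 * ((Real.log p / p) ^ 2 + (α ^ (q - p))⁻¹ * (Real.log p / p)) +
            2 * C1 ^ 2 * (Real.log p / p) ^ 2) +
            ((2 * K0 + (2 * C1 ^ 2)) * (Real.log p / p) ^ 2 +
            (2 * K0 + (2 * C1 ^ 2) + 2 * C1 ^ 2) *
              ((α ^ (q - p))⁻¹ * (Real.log p / p))) := by
          rw [hK]; ring
        rw [e7]
        have : 0 ≤ (2 * K0 + (2 * C1 ^ 2)) * (Real.log p / p) ^ 2 +
            (2 * K0 + (2 * C1 ^ 2) + 2 * C1 ^ 2) *
              ((α ^ (q - p))⁻¹ * (Real.log p / p)) := by positivity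
        linarith
      linarith)
  refine ⟨gf_meas b A m, fun q => measurable_const, gf01 b A m, fun q _ => ee_nonneg b A m q,
    fun q _ => ee_le_one hb A m q, ⟨2 * K0, by positivity, Q, Eventually.of_forall fun t q hq _ =>
    hmean q hq⟩, ⟨cc, cc, hcc0, Eventually.of_forall fun _ => ⟨le_rfl, le_rfl⟩⟩, ?_,
    ⟨C1, hC1.le, Q, fun q hq _ => by rw [ee_eq hb]; exact hup q hq⟩⟩
  refine ⟨κr, C' + 2 * C1, hκrp, by positivity, P', hP3', fun q hq _ => ?_, fun q hq _ T hT => ?_⟩
  · have h1 : ∫ t, (gf b A m q t - ee b A m q) ^ 2 ∂U01 ≤ 2 * ee b A m q := by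
      have h2 : ∫ t, (gf b A m q t - ee b A m q) ^ 2 ∂U01 ≤
          ∫ t, (gf b A m q t + ee b A m q) ∂U01 := by
        apply integral_mono
        · refine Integrable.of_bound (((gf_meas b A m q).sub_const _).pow_const 2).aestronglyMeasurable
            1 (Eventually.of_forall fun x => ?_)
          rw [Real.norm_eq_abs, abs_pow]
          exact pow_le_one₀ (abs_nonneg _) (cs_abs hb A m q _)
        · exact (gf_int b A m q).add (integrable_const _)
        · intro t
          have h3 := ee_nonneg b A m q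
          have h4 := ee_le_one hb A m q
          simp only
          rcases gf01 b A m q t with h5 | h5
          · rw [h5]; nlinarith
          · rw [h5]; nlinarith
      refine h2.trans (le_of_eq ?_)
      rw [integral_add (gf_int b A m q) (integrable_const _), ee_eq hb, integral_const, U01_univ,
        smul_eq_mul]
      ring
    have h2 := hup q (hP'.trans hq)
    refine h1.trans ?_
    have h3 : 0 ≤ C' * wt q := mul_nonneg hC'.le (wt_nonneg q)
    linarith
  · have hsame : ∑ p ∈ T, |∫ t, (gf b A m p t - ee b A m p) * (gf b A m q t - ee b A m q) ∂U01| =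
        ∑ p ∈ T, |J p q| := by
      refine Finset.sum_congr rfl fun p hp => ?_
      have := (hT p hp).2.1
      simp only [hJ]
      rw [if_pos (hP'.trans this)]
    have e1 := hrow q hq T hT
    rw [← hsame] at e1
    refine e1.trans ?_
    have : 0 ≤ ∑ p ∈ T.filter (fun p : ℕ => κr * q / Real.log q < (p : ℝ)), Real.log p / (p : ℝ) :=
      Finset.sum_nonneg fun p _ => hw0 p
    refine mul_le_mul_of_nonneg_right (by linarith) ?_
    exact mul_nonneg (hw0 q) (by linarith)

end Pool.Agent.Y895.FB
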