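import Pool.Agent.Y895.FB.F3
import Pool.Agent.Y895.PM.G5
import Pool.Agent.TH888.R.Asy

set_option autoImplicit false

/-!
# The law for random lower digits under prescribed upper digits, growth `α ^ p`
-/

open Filter Topology MeasureTheory Finset
open scoped Real

namespace Pool.Agent.Y895.FB

open Pool.Agent.TH888.R (Pt)
open Pool.Agent.Y895.PM (U01 pow_exp)

/-- **The law at almost every point.** -/
theorem pt_fb {b : ℕ} (hb : 2 ≤ b) {α : ℝ} (hα : 1 < α) : ∃ κ : ℝ, 0 < κ ∧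
    ∀ (c C : ℝ), 0 < c → 0 < C → ∀ A m : ℕ → ℕ, (∀ᶠ p in atTop, m p ≤ m (p + 1)) →
    (∀ᶠ p : ℕ in atTop, c * α ^ p ≤ A p ∧ (A p : ℝ) ≤ C * α ^ p ∧ b ^ m p ≤ A p ∧
      (p : ℝ) * Real.log α - κ * p / Real.log p ≤ m p * Real.log b) →
    ∀ S : Set ℕ, ∀ᵐ t : ℝ, 0 ≤ t → t < 1 →
      Pt (fun p => A p + ⌊(b : ℝ) ^ m p * t⌋₊)
        (Real.exp Real.eulerMascheroniConstant / Real.log α) S := by
  obtain ⟨κ, hκ, h⟩ := sys_fb hb hα
  refine ⟨κ, hκ, fun c C hc hC A m hm hA S => ?_⟩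
  obtain ⟨P, hP⟩ := (hm.and hA).exists_forall_of_atTop
  have hadm : Adm b α κ c C A m P := by
    refine ⟨fun p hp q hq => ?_, fun p hp => (hP p hp).2.1, fun p hp => (hP p hp).2.2.1,
      fun p hp => (hP p hp).2.2.2.1, fun p hp => (hP p hp).2.2.2.2⟩
    induction q, hq using Nat.le_induction with
    | base => exact le_rfl
    | succ q hq ih => exact ih.trans (hP q (le_trans hp hq)).1
  have hs := (h c C hc hC A m P hadm).pt (s := fun t p => A p + ⌊(b : ℝ) ^ m p * t⌋₊)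
    (Eventually.of_forall fun t => ⟨0, fun p _ _ => rfl⟩) S
  unfold U01 at hs
  rw [ae_restrict_iff' measurableSet_Ico] at hs
  filter_upwards [hs] with t ht h0 h1
  exact ht ⟨h0, h1⟩

/-- **The law for truncated sequences**: the last `m p` base `b` digits of `Q p` are replaced by
those of `t`; the number of digits of `Q p` that are kept tends to infinity. -/
theorem pt_fb_trunc {b : ℕ} (hb : 2 ≤ b) {α : ℝ} (hα : 1 < α) : ∃ κ : ℝ, 0 < κ ∧
    ∀ (c C : ℝ), 0 < c → 0 < C → ∀ Q m : ℕ → ℕ,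
    (∀ᶠ p : ℕ in atTop, c * α ^ p ≤ Q p ∧ (Q p : ℝ) ≤ C * α ^ p) →
    (∀ᶠ p in atTop, m p ≤ m (p + 1)) →
    Tendsto (fun p => Q p / b ^ m p) atTop atTop →
    (∀ᶠ p : ℕ in atTop, Real.log (Q p / b ^ m p : ℕ) ≤ κ * p / Real.log p) →
    ∀ S : Set ℕ, ∀ᵐ t : ℝ, 0 ≤ t → t < 1 →
      Pt (fun p => b ^ m p * (Q p / b ^ m p) + ⌊(b : ℝ) ^ m p * t⌋₊)
        (Real.exp Real.eulerMascheroniConstant / Real.log α) S := by
  obtain ⟨κ, hκ, h⟩ := pt_fb hb hα
  refine ⟨κ / 2, by positivity, fun c C hc hC Q m hQ hm ht hk S => ?_⟩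
  refine h (c / 2) C (by positivity) hC (fun p => b ^ m p * (Q p / b ^ m p)) m hm ?_ S
  have hbr : (2 : ℝ) ≤ b := by exact_mod_cast hb
  have hb0 : (0 : ℝ) < b := by linarith
  have hα0 : 0 < α := by linarith
  have hk2 : ∀ᶠ p : ℕ in atTop, |Real.log c| + Real.log 2 ≤ κ / 2 * p / Real.log p :=
    (Pool.Agent.TH888.R.q_div_log (by positivity)).eventually_ge_atTop _
  filter_upwards [hQ, ht.eventually_ge_atTop 1, hk, hk2] with p hp h1 h2 h3
  obtain ⟨q1, q2⟩ := hp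
  have hpos : 0 < b ^ m p := by positivity
  have hposR : (0 : ℝ) < (b : ℝ) ^ m p := by positivity
  set k := Q p / b ^ m p with hk'
  have h4 : Q p < b ^ m p * k + b ^ m p := by
    have := Nat.div_add_mod (Q p) (b ^ m p)
    have h5 := Nat.mod_lt (Q p) hpos
    rw [← hk'] at this
    omega
  have h5 : b ^ m p * k ≤ Q p := Nat.mul_div_le _ _
  have h6 : b ^ m p ≤ b ^ m p * k := Nat.le_mul_of_pos_right _ h1
  have h7 : Q p ≤ 2 * (b ^ m p * k) := by omega
  have h7' : (Q p : ℝ) ≤ 2 * ((b ^ m p * k : ℕ) : ℝ) := by exact_mod_cast h7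
  have h5' : ((b ^ m p * k : ℕ) : ℝ) ≤ Q p := by exact_mod_cast h5
  have hkR : (1 : ℝ) ≤ k := by exact_mod_cast h1
  refine ⟨by linarith, by linarith, h6, ?_⟩
  have h8 : Real.log (c * α ^ p) ≤ Real.log (2 * ((b ^ m p * k : ℕ) : ℝ)) :=
    Real.log_le_log (by positivity) (q1.trans h7')
  have e1 : Real.log (2 * ((b ^ m p * k : ℕ) : ℝ)) =
      Real.log 2 + (m p * Real.log b + Real.log k) := by
    push_cast
    rw [Real.log_mul (by norm_num) (by positivity), Real.log_mul (by positivity) (by positivity),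
      Real.log_pow]
  rw [e1, Real.log_mul hc.ne' (by positivity), Real.log_pow] at h8
  have h9 := neg_abs_le (Real.log c)
  have e2 : κ * p / Real.log p = κ / 2 * p / Real.log p + κ / 2 * p / Real.log p := by ring
  rw [e2]
  linarith

end Pool.Agent.Y895.FB
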